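import Mathlib
import Pool.Agent.TH465.Fr.Main

/-!
# MP_1f54e8_co: the frequency order fails for two non-constant words

Letters: `true` is `1`, `false` is `0`. For `v = 1^31 0^17` and `w = (011)^16`, both of length `48`,
one has `|v|₁ = 31 < 32 = |w|₁` but `ρ^v < ρ^w`: up to terms of order `48 * 2 ^ (-96)`,
`ρ^v = 1/2 - 7 * 2 ^ (-48)` and `ρ^w = 1/2 - 6.9375 * 2 ^ (-48)`. The reason is that `w` overlaps
itself: in general `ρ^w ≈ 1/2 - 2 ^ (-k) (|w|₁ - k/2 - c) / C` with `C = Σ 2 ^ (-p)` over the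
periods `p` of `w`, so a word with small period `3` loses a factor `8/7` against an unbordered word,
and for `k ≥ 46` this outweighs one letter.
-/

set_option autoImplicit false

open Filter Topology

namespace Pool.Agent.Results.MP_1f54e8_co.NonconstantPair

/-- The number of ones of a word. -/
def ones (u : List Bool) : ℕ := u.count true

/-- The words of length `n` that do not contain `w` as a factor. -/
def Omega (w : List Bool) (n : ℕ) : Finset (Fin n → Bool) :=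
  Finset.univ.filter fun u => ¬ w <:+: List.ofFn u

/-- `ρ^w = ρ`: the sum of `|u|₁` over the `w`-avoiding words `u` of length `n`, divided by `n`
times their number, tends to `ρ`. -/
def HasFrequency (w : List Bool) (ρ : ℝ) : Prop :=
  Tendsto (fun n : ℕ => (∑ u ∈ Omega w n, (ones (List.ofFn u) : ℝ)) /
    ((n : ℝ) * ((Omega w n).card : ℝ))) atTop (𝓝 ρ)

/-- The excluded words `1^(k-1) 0`, `1 0^(k-1)`, `0^(k-1) 1`, `0 1^(k-1)` for `k ≥ 2`. -/
def R : Set (List Bool) :=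
  {w | ∃ k : ℕ, 2 ≤ k ∧ (w = List.replicate (k - 1) true ++ [false] ∨
    w = true :: List.replicate (k - 1) false ∨ w = List.replicate (k - 1) false ++ [true] ∨
    w = false :: List.replicate (k - 1) true)}

/-- The word `1^31 0^17`. -/
def v : List Bool := List.replicate 31 true ++ List.replicate 17 false

/-- The word `(011)^16`. -/
def w : List Bool := (List.replicate 16 [false, true, true]).flatten

theorem image_Omega (u : List Bool) (n : ℕ) : (Omega u n).image List.ofFn = TH465.Fr.Om u n := by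
  ext x
  rw [Finset.mem_image, TH465.Fr.mem_Om]
  constructor
  · rintro ⟨f, hf, rfl⟩
    simp only [Omega, Finset.mem_filter, Finset.mem_univ, true_and] at hf
    exact ⟨by simp, hf⟩
  · rintro ⟨rfl, h⟩
    refine ⟨x.get, ?_, List.ofFn_get x⟩
    simp only [Omega, Finset.mem_filter, Finset.mem_univ, true_and]
    rwa [List.ofFn_get]

theorem card_Omega (u : List Bool) (n : ℕ) : ((Omega u n).card : ℝ) = TH465.Fr.A u n := by
  rw [TH465.Fr.A, ← image_Omega, Finset.card_image_of_injective _ List.ofFn_injective]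

theorem sum_Omega (u : List Bool) (n : ℕ) :
    ∑ x ∈ Omega u n, (ones (List.ofFn x) : ℝ) = TH465.Fr.B u n := by
  rw [TH465.Fr.B, ← image_Omega, Finset.sum_image]
  · rfl
  · intro a _ b _ h
    exact List.ofFn_injective h

theorem hasFrequency_iff (u : List Bool) (ρ : ℝ) : HasFrequency u ρ ↔
    Tendsto (fun n : ℕ => TH465.Fr.B u n / (n * TH465.Fr.A u n)) atTop (𝓝 ρ) := by
  unfold HasFrequency
  simp only [card_Omega, sum_Omega]

theorem not_mem_R {u : List Bool} (h48 : u.length = 48)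
    (h1 : u ≠ List.replicate 47 true ++ [false]) (h2 : u ≠ true :: List.replicate 47 false)
    (h3 : u ≠ List.replicate 47 false ++ [true]) (h4 : u ≠ false :: List.replicate 47 true) :
    u ∉ R := by
  rintro ⟨k, hk, h⟩
  have hk48 : k = 48 := by
    rcases h with rfl | rfl | rfl | rfl <;>
      simp only [List.length_append, List.length_replicate, List.length_cons,
        List.length_nil] at h48 <;> omega
  subst hk48
  rcases h with h | h | h | h
  · exact h1 h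
  · exact h2 h
  · exact h3 h
  · exact h4 h

theorem root_v : ∃ μ : ℝ, 3 / 2 ≤ μ ∧ μ ≤ 2 ∧ μ ^ 48 + 1 = 2 * μ ^ 47 := by
  have hc : ContinuousOn (fun z : ℝ => z ^ 48 + 1 - 2 * z ^ 47) (Set.Icc (2 - 1 / 2 ^ 40) 2) := by
    fun_prop
  have hab : (2 - 1 / 2 ^ 40 : ℝ) ≤ 2 := by norm_num
  have h := intermediate_value_Icc hab hc
  have h0 : (0 : ℝ) ∈ Set.Icc ((fun z : ℝ => z ^ 48 + 1 - 2 * z ^ 47) (2 - 1 / 2 ^ 40))
      ((fun z : ℝ => z ^ 48 + 1 - 2 * z ^ 47) 2) := by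
    constructor <;> norm_num
  obtain ⟨μ, hμ, hμ0⟩ := h h0
  refine ⟨μ, ?_, hμ.2, by simp only at hμ0; linarith⟩
  have := hμ.1
  norm_num at this
  linarith

theorem root_w : ∃ ν : ℝ, 2 - 1 / 2 ^ 40 ≤ ν ∧ ν ≤ 2 ∧ ν ^ 51 + 2 * ν ^ 2 = 2 * ν ^ 50 + 1 := by
  have hc : ContinuousOn (fun z : ℝ => z ^ 51 + 2 * z ^ 2 - (2 * z ^ 50 + 1))
      (Set.Icc (2 - 1 / 2 ^ 40) 2) := by
    fun_prop
  have hab : (2 - 1 / 2 ^ 40 : ℝ) ≤ 2 := by norm_num
  have h := intermediate_value_Icc hab hc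
  have h0 : (0 : ℝ) ∈ Set.Icc ((fun z : ℝ => z ^ 51 + 2 * z ^ 2 - (2 * z ^ 50 + 1))
      (2 - 1 / 2 ^ 40)) ((fun z : ℝ => z ^ 51 + 2 * z ^ 2 - (2 * z ^ 50 + 1)) 2) := by
    constructor <;> norm_num
  obtain ⟨ν, hν, hν0⟩ := h h0
  exact ⟨ν, hν.1, hν.2, by simp only at hν0; linarith⟩

/-- The frequency of `v` is at most `1/2 - 7 / 2 ^ 48`. -/
theorem bound_v (μ : ℝ) (h1 : 3 / 2 ≤ μ) (h2 : μ ≤ 2) (hroot : μ ^ 48 + 1 = 2 * μ ^ 47) :
    (1 / μ - 31 / μ ^ 48) / (1 - 47 / μ ^ 48) ≤ 1 / 2 - 7 / 2 ^ 48 := by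
  have hμ : 0 < μ := by linarith
  set ε := 1 / μ ^ 48 with hε
  have hε0 : 0 < ε := by positivity
  have hε1 : ε ≤ (2 / 3) ^ 48 := by
    rw [hε, ← one_div_pow]
    apply pow_le_pow_left₀ (by positivity)
    rw [div_le_iff₀ hμ]
    linarith
  have hε2 : 1 / 2 ^ 48 ≤ ε := by
    rw [hε]
    apply one_div_le_one_div_of_le (by positivity)
    exact pow_le_pow_left₀ hμ.le h2 48
  have hinv : 1 / μ = (1 + ε) / 2 := by
    rw [hε]
    field_simp
    linear_combination (-1 : ℝ) * hroot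
  have e1 : 31 / μ ^ 48 = 31 * ε := by rw [hε]; ring
  have e2 : 47 / μ ^ 48 = 47 * ε := by rw [hε]; ring
  have hsmall : ε ≤ 1 / 1000 := hε1.trans (by norm_num)
  rw [e1, e2, hinv, div_le_iff₀ (by linarith)]
  have e3 : (7 : ℝ) / 2 ^ 48 = 7 * (1 / 2 ^ 48) := by ring
  rw [e3]
  nlinarith

/-- The frequency of `w` is larger than `1/2 - 7 / 2 ^ 48`. -/
theorem bound_w (ν : ℝ) (h1 : 2 - 1 / 2 ^ 40 ≤ ν) (h2 : ν ≤ 2)
    (hroot : ν ^ 51 + 2 * ν ^ 2 = 2 * ν ^ 50 + 1) :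
    1 / 2 - 7 / 2 ^ 48 < (1 / ν - 65 / ν ^ 49 + 34 / ν ^ 51) /
      (1 - 96 / ν ^ 49 + 50 / ν ^ 51) := by
  have h32 : (3 : ℝ) / 2 ≤ 2 - 1 / 2 ^ 40 := by norm_num
  have hν : 0 < ν := by linarith
  set δ := 1 / ν ^ 49 with hδ
  set δ' := 1 / ν ^ 51 with hδ'
  have hδ0 : 0 < δ := by positivity
  have hδ'0 : 0 < δ' := by positivity
  have hδ1 : δ ≤ 1 / (2 - 1 / 2 ^ 40) ^ 49 := by
    rw [hδ]
    apply one_div_le_one_div_of_le (by positivity)
    exact pow_le_pow_left₀ (by norm_num) h1 49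
  have hδδ' : δ / 4 ≤ δ' := by
    have : δ' = δ * (1 / ν ^ 2) := by
      rw [hδ, hδ']
      field_simp
    rw [this]
    have h4 : 1 / 4 ≤ 1 / ν ^ 2 := by
      apply one_div_le_one_div_of_le (by positivity)
      nlinarith
    nlinarith
  have hinv : 1 / ν = (1 + 2 * δ - δ') / 2 := by
    rw [hδ, hδ']
    field_simp
    linear_combination (-1 : ℝ) * hroot
  have e1 : 65 / ν ^ 49 = 65 * δ := by rw [hδ]; ring
  have e2 : 96 / ν ^ 49 = 96 * δ := by rw [hδ]; ring
  have e3 : 34 / ν ^ 51 = 34 * δ' := by rw [hδ']; ring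
  have e4 : 50 / ν ^ 51 = 50 * δ' := by rw [hδ']; ring
  have hsmall : δ ≤ 1 / 100000 := hδ1.trans (by norm_num)
  have hkey : 1395 / 100 * δ < 7 / 2 ^ 48 := by
    calc 1395 / 100 * δ ≤ 1395 / 100 * (1 / (2 - 1 / 2 ^ 40) ^ 49) :=
          mul_le_mul_of_nonneg_left hδ1 (by norm_num)
      _ < 7 / 2 ^ 48 := by norm_num
  rw [e1, e2, e3, e4, hinv]
  have hden : 0 < 1 - 96 * δ + 50 * δ' := by linarith
  have hge : 1 / 2 - 1395 / 100 * δ ≤ ((1 + 2 * δ - δ') / 2 - 65 * δ + 34 * δ') /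
      (1 - 96 * δ + 50 * δ') := by
    rw [le_div_iff₀ hden]
    nlinarith [mul_pos hδ0 hδ'0]
  linarith

/-- The non-constant words `v = 1^31 0^17` and `w = (011)^16` are not excluded, have the same
length `48`, and `v` has fewer ones than `w`, but `ρ^v < ρ^w`. -/
theorem result : v ∉ R ∧ w ∉ R ∧ v.length = w.length ∧ ones v < ones w ∧
    ∃ ρv ρw : ℝ, HasFrequency v ρv ∧ HasFrequency w ρw ∧ ρv < ρw := by
  obtain ⟨μ, hμ1, hμ2, hμ⟩ := root_v
  obtain ⟨ν, hν1, hν2, hν⟩ := root_w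
  refine ⟨not_mem_R (by decide +kernel) (by decide +kernel) (by decide +kernel)
    (by decide +kernel) (by decide +kernel),
    not_mem_R (by decide +kernel) (by decide +kernel) (by decide +kernel)
    (by decide +kernel) (by decide +kernel), by decide +kernel, by decide +kernel,
    _, _, ?_, ?_, (bound_v μ hμ1 hμ2 hμ).trans_lt (bound_w ν hν1 hν2 hν)⟩
  · rw [hasFrequency_iff]
    exact TH465.Fr.vv_limit μ hμ1 hμ2 hμ
  · rw [hasFrequency_iff]
    exact TH465.Fr.ww_limit ν (le_trans (by norm_num) hν1) hν2 hν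

end Pool.Agent.Results.MP_1f54e8_co.NonconstantPair
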